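import Pool.Agent.H59.L.S8.R754.KG.A

/-!
# Bodies fibred over a base of small dimension: the bulk of the base
-/

set_option autoImplicit false

namespace Pool.Agent.R754.KG

open MeasureTheory Set Filter Topology
open scoped ENNReal InnerProductSpace

variable {N d : ℕ}

/-! ### uniform measures -/

section

variable {V : Type} [MeasureSpace V]

/-- uniform probability measure -/
noncomputable def un (A : Set V) : Measure V := (volume A)⁻¹ • volume.restrict A

theorem un_prob {A : Set V} (h0 : volume A ≠ 0) (h1 : volume A ≠ ⊤) :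
    IsProbabilityMeasure (un A) := by
  refine ⟨?_⟩
  unfold un
  rw [Measure.smul_apply, Measure.restrict_apply_univ, smul_eq_mul]
  exact ENNReal.inv_mul_cancel h0 h1

theorem un_lint {A : Set V} (h0 : volume A ≠ 0) (h1 : volume A ≠ ⊤) (F : V → ℝ≥0∞) :
    ∫⁻ x in A, F x = volume A * ∫⁻ x, F x ∂(un A) := by
  unfold un
  rw [lintegral_smul_measure, smul_eq_mul, ← mul_assoc, ENNReal.mul_inv_cancel h0 h1, one_mul]

end

theorem un_int {V : Type} [NormedAddCommGroup V] [ProperSpace V] [MeasureSpace V] [BorelSpace V]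
    [IsFiniteMeasureOnCompacts (volume : Measure V)] {A : Set V} (h0 : volume A ≠ 0)
    (hb : Bornology.IsBounded A) {f : V → ℝ} (hf : Continuous f) : Integrable f (un A) := by
  unfold un
  have h := (hf.continuousOn.integrableOn_compact (μ := (volume : Measure V))
    hb.isCompact_closure).mono_set subset_closure
  exact Integrable.smul_measure h (ENNReal.inv_ne_top.2 h0)

/-! ### pairs of fibres -/

/-- the fibre of `K` over `t` -/
def sl (K : Set (E N × E d)) (t : E d) : Set (E N) := {x | (x, t) ∈ K}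

/-- the map which is diagonal in the coordinates `A` -/
noncomputable def cj (A : E N ≃ₗ[ℝ] E N) (lam : Fin N → ℝ) : E N →ₗ[ℝ] E N :=
  A.symm.toLinearMap ∘ₗ dg lam ∘ₗ A.toLinearMap

theorem cj_apply (A : E N ≃ₗ[ℝ] E N) (lam : Fin N → ℝ) (x : E N) :
    cj A lam x = A.symm (dg lam (A x)) := rfl

theorem cj_det (A : E N ≃ₗ[ℝ] E N) (lam : Fin N → ℝ) : LinearMap.det (cj A lam) = ∏ i, lam i := by
  have h := LinearMap.det_conj (dg lam) A.symm
  rw [dg_det] at h
  exact h

theorem cj_half (A : E N ≃ₗ[ℝ] E N) (lam : Fin N → ℝ) (v x : E N) :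
    (1 / 2 : ℝ) • v + cj A (fun i => (1 + lam i) / 2) x =
      (1 / 2 : ℝ) • (x + (v + cj A lam x)) := by
  apply A.injective
  simp only [cj_apply, map_add, map_smul, LinearEquiv.apply_symm_apply]
  ext i
  simp only [PiLp.add_apply, PiLp.smul_apply, dg_apply, smul_eq_mul]
  ring

/-- `C1` is the image of `C0` under `x ↦ v + A⁻¹ diag(lam) A x`, and the coordinates of `A x`,
`x ∈ C0`, are uncorrelated -/
structure DR (C0 C1 : Set (E N)) (A : E N ≃ₗ[ℝ] E N) (v : E N) (lam : Fin N → ℝ) : Prop where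
  pos : ∀ i, 0 < lam i
  eq : C1 = (fun x => v + cj A lam x) '' C0
  unc : ∀ i j, i ≠ j → ∫ x, A x i * A x j ∂(un C0) =
    (∫ x, A x i ∂(un C0)) * ∫ x, A x j ∂(un C0)

/-- convex sets whose fibres are diagonally related to each other -/
structure Fb (K : Set (E N × E d)) : Prop where
  conv : Convex ℝ K
  meas : MeasurableSet K
  bdd : Bornology.IsBounded K
  pos : 0 < volume K
  fib : ∀ t0 t1, volume (sl K t0) ≠ 0 → volume (sl K t1) ≠ 0 → ∃ A v lam,
    DR (sl K t0) (sl K t1) A v lam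

theorem amgm (a b : Fin N → ℝ) (ha : ∀ i, 0 < a i) (hb : ∀ i, 0 < b i) :
    Real.sqrt ((∏ i, a i) * ∏ i, b i) ≤ ∏ i, (a i + b i) / 2 := by
  rw [← Finset.prod_mul_distrib]
  have h0 : 0 ≤ ∏ i, (a i + b i) / 2 :=
    Finset.prod_nonneg fun i _ => by have := ha i; have := hb i; positivity
  rw [← Real.sqrt_sq h0]
  refine Real.sqrt_le_sqrt ?_
  rw [← Finset.prod_pow]
  refine Finset.prod_le_prod (fun i _ => by have := ha i; have := hb i; positivity) fun i _ => ?_
  nlinarith [sq_nonneg (a i - b i)]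

theorem amgm1 (b : Fin N → ℝ) (hb : ∀ i, 0 < b i) :
    Real.sqrt (∏ i, b i) ≤ ∏ i, (1 + b i) / 2 := by
  have h := amgm (fun _ => 1) b (fun _ => one_pos) hb
  simpa using h

theorem two_eight (a b : ℝ) : ENNReal.ofReal (a ^ 2) ≤
    8 * ENNReal.ofReal (((a + b) / 2) ^ 2) + 2 * ENNReal.ofReal (b ^ 2) := by
  have e5 : 8 * ENNReal.ofReal (((a + b) / 2) ^ 2) = ENNReal.ofReal (8 * ((a + b) / 2) ^ 2) := by
    rw [ENNReal.ofReal_mul (by norm_num)]
    norm_num
  have e6 : 2 * ENNReal.ofReal (b ^ 2) = ENNReal.ofReal (2 * b ^ 2) := by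
    rw [ENNReal.ofReal_mul (by norm_num)]
    norm_num
  rw [e5, e6, ← ENNReal.ofReal_add (by positivity) (by positivity)]
  refine ENNReal.ofReal_le_ofReal ?_
  nlinarith [sq_nonneg (a + 2 * b)]

/-- volume of the fibre -/
noncomputable def Rv (K : Set (E N × E d)) (t : E d) : ℝ := (volume (sl K t)).toReal

theorem R_nonneg {K : Set (E N × E d)} (t : E d) : 0 ≤ Rv K t := by
  unfold Rv
  positivity

namespace Fb

variable {K : Set (E N × E d)}

theorem sl_meas (h : Fb K) (t : E d) : MeasurableSet (sl K t) :=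
  measurable_prodMk_right h.meas

theorem kfin (h : Fb K) : volume K ≠ ⊤ := h.bdd.measure_lt_top.ne

theorem sl_bd (h : Fb K) (t : E d) : Bornology.IsBounded (sl K t) :=
  h.bdd.image_fst.subset fun x hx => ⟨(x, t), hx, rfl⟩

theorem sl_bdd (h : Fb K) : ∃ B : ℝ≥0∞, B ≠ ⊤ ∧ ∀ t, volume (sl K t) ≤ B := by
  have hb : Bornology.IsBounded (Prod.fst '' K) := h.bdd.image_fst
  refine ⟨volume (Prod.fst '' K), hb.measure_lt_top.ne, fun t => ?_⟩
  exact measure_mono fun x hx => ⟨(x, t), hx, rfl⟩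

theorem sl_fin (h : Fb K) (t : E d) : volume (sl K t) ≠ ⊤ := (h.sl_bd t).measure_lt_top.ne

theorem R_vol (h : Fb K) (t : E d) : volume (sl K t) = ENNReal.ofReal (Rv K t) := by
  unfold Rv
  rw [ENNReal.ofReal_toReal (h.sl_fin t)]

theorem ne_of_R {t : E d} (ht : 0 < Rv K t) : volume (sl K t) ≠ 0 := by
  intro h0
  unfold Rv at ht
  rw [h0] at ht
  simp at ht

theorem dt_lint (h : Fb K) {t0 t1 : E d} {A : E N ≃ₗ[ℝ] E N} {v : E N} {lam : Fin N → ℝ}
    (hd : DR (sl K t0) (sl K t1) A v lam) (F : E N → ℝ≥0∞) :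
    ∫⁻ x in sl K t1, F x =
      ENNReal.ofReal (∏ i, lam i) * ∫⁻ p in sl K t0, F (v + cj A lam p) := by
  have hp : 0 < ∏ i, lam i := Finset.prod_pos fun i _ => hd.pos i
  have h2 := lint_aff (cj A lam) (by rw [cj_det]; exact hp.ne') v (sl K t0) (h.sl_meas t0) F
  rw [← hd.eq, cj_det, abs_of_pos hp] at h2
  exact h2

theorem dt_R (h : Fb K) {t0 t1 : E d} {A : E N ≃ₗ[ℝ] E N} {v : E N} {lam : Fin N → ℝ}
    (hd : DR (sl K t0) (sl K t1) A v lam) : Rv K t1 = (∏ i, lam i) * Rv K t0 := by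
  have hp : 0 < ∏ i, lam i := Finset.prod_pos fun i _ => hd.pos i
  have h2 := h.dt_lint hd fun _ => 1
  simp only [lintegral_const, MeasurableSet.univ, Measure.restrict_apply, univ_inter,
    one_mul] at h2
  unfold Rv
  rw [h2, ENNReal.toReal_mul, ENNReal.toReal_ofReal hp.le]

theorem mid_sub (h : Fb K) {t0 t1 : E d} {A : E N ≃ₗ[ℝ] E N} {v : E N} {lam : Fin N → ℝ}
    (hd : DR (sl K t0) (sl K t1) A v lam) :
    (fun p => (1 / 2 : ℝ) • v + cj A (fun i => (1 + lam i) / 2) p) '' sl K t0 ⊆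
      sl K ((1 / 2 : ℝ) • (t0 + t1)) := by
  rintro _ ⟨p, hp, rfl⟩
  have k0 : (p, t0) ∈ K := hp
  have k1 : (v + cj A lam p, t1) ∈ K := by
    have : v + cj A lam p ∈ sl K t1 := by
      rw [hd.eq]
      exact mem_image_of_mem _ hp
    exact this
  have k := h.conv k0 k1 (by norm_num : (0 : ℝ) ≤ 1 / 2) (by norm_num : (0 : ℝ) ≤ 1 / 2)
    (by norm_num)
  have e : (1 / 2 : ℝ) • (p, t0) + (1 / 2 : ℝ) • (v + cj A lam p, t1) =
      ((1 / 2 : ℝ) • (p + (v + cj A lam p)), (1 / 2 : ℝ) • (t0 + t1)) := by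
    rw [smul_add (1 / 2 : ℝ) p, smul_add (1 / 2 : ℝ) t0]
    rfl
  rw [e, ← cj_half] at k
  exact k

theorem mid_lint (h : Fb K) {t0 t1 : E d} {A : E N ≃ₗ[ℝ] E N} {v : E N} {lam : Fin N → ℝ}
    (hd : DR (sl K t0) (sl K t1) A v lam) (F : E N → ℝ≥0∞) :
    ENNReal.ofReal (∏ i, (1 + lam i) / 2) *
      ∫⁻ p in sl K t0, F ((1 / 2 : ℝ) • (p + (v + cj A lam p))) ≤
      ∫⁻ x in sl K ((1 / 2 : ℝ) • (t0 + t1)), F x := by
  have hp : 0 < ∏ i, (1 + lam i) / 2 :=
    Finset.prod_pos fun i _ => by have := hd.pos i; positivity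
  refine le_trans (le_of_eq ?_) (lintegral_mono_set (h.mid_sub hd))
  rw [lint_aff (cj A fun i => (1 + lam i) / 2) (by rw [cj_det]; exact hp.ne') _ _
    (h.sl_meas t0) F, cj_det, abs_of_pos hp]
  simp only [cj_half]

theorem mid_R (h : Fb K) {t0 t1 : E d} {A : E N ≃ₗ[ℝ] E N} {v : E N} {lam : Fin N → ℝ}
    (hd : DR (sl K t0) (sl K t1) A v lam) :
    (∏ i, (1 + lam i) / 2) * Rv K t0 ≤ Rv K ((1 / 2 : ℝ) • (t0 + t1)) := by
  have hp : 0 < ∏ i, (1 + lam i) / 2 :=
    Finset.prod_pos fun i _ => by have := hd.pos i; positivity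
  have h2 := h.mid_lint hd fun _ => 1
  simp only [lintegral_const, MeasurableSet.univ, Measure.restrict_apply, univ_inter,
    one_mul] at h2
  rw [h.R_vol, h.R_vol, ← ENNReal.ofReal_mul hp.le] at h2
  exact (ENNReal.ofReal_le_ofReal_iff (R_nonneg _)).1 h2

/-- square root concavity of the volume of the fibres -/
theorem geo (h : Fb K) {t0 t1 : E d} (h0 : 0 < Rv K t0) (h1 : 0 < Rv K t1) :
    Real.sqrt (Rv K t0 * Rv K t1) ≤ Rv K ((1 / 2 : ℝ) • (t0 + t1)) := by
  obtain ⟨A, v, lam, hd⟩ := h.fib t0 t1 (ne_of_R h0) (ne_of_R h1)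
  have hp : 0 < ∏ i, lam i := Finset.prod_pos fun i _ => hd.pos i
  refine le_trans ?_ (h.mid_R hd)
  rw [h.dt_R hd]
  have e : Rv K t0 * ((∏ i, lam i) * Rv K t0) = (∏ i, lam i) * Rv K t0 ^ 2 := by ring
  rw [e, Real.sqrt_mul hp.le, Real.sqrt_sq h0.le]
  exact mul_le_mul_of_nonneg_right (amgm1 lam hd.pos) h0.le

theorem fub (h : Fb K) (F : E N × E d → ℝ≥0∞) (hF : Measurable F) :
    ∫⁻ z in K, F z = ∫⁻ t, ∫⁻ x in sl K t, F (x, t) := by
  rw [← lintegral_indicator h.meas, Measure.volume_eq_prod,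
    lintegral_prod_symm' _ (hF.indicator h.meas)]
  refine lintegral_congr fun t => ?_
  rw [← lintegral_indicator (h.sl_meas t)]
  rfl

theorem sec_meas (h : Fb K) (F : E N × E d → ℝ≥0∞) (hF : Measurable F) :
    Measurable fun t => ∫⁻ x in sl K t, F (x, t) := by
  have h1 : Measurable fun t : E d => ∫⁻ x, K.indicator F (x, t) := by
    exact (hF.indicator h.meas).lintegral_prod_left'
  convert h1 using 2 with t
  rw [← lintegral_indicator (h.sl_meas t)]
  rfl

theorem vol_fub (h : Fb K) : volume K = ∫⁻ t, volume (sl K t) := by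
  have := h.fub (fun _ => 1) measurable_const
  simpa using this

theorem vol_meas (h : Fb K) : Measurable fun t => volume (sl K t) := by
  have := h.sec_meas (fun _ => 1) measurable_const
  simpa using this

theorem R_meas (h : Fb K) : Measurable (Rv K) := by
  unfold Rv
  exact h.vol_meas.ennreal_toReal

/-- the fibres of small volume have small total volume -/
theorem tail (h : Fb K) {S ε : ℝ} (hS : 0 < S) (hε : 0 < ε) {ts : E d}
    (hts : S / 2 ≤ Rv K ts) :
    ∫⁻ t in {t | Rv K t < ε * S}, volume (sl K t) ≤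
      ENNReal.ofReal (Real.sqrt (2 * ε) * 2 ^ d) * volume K := by
  have hpt : ∀ t ∈ {t | Rv K t < ε * S}, volume (sl K t) ≤
      ENNReal.ofReal (Real.sqrt (2 * ε)) * volume (sl K ((1 / 2 : ℝ) • (ts + t))) := by
    intro t ht
    have hRs : 0 < Rv K ts := lt_of_lt_of_le (by positivity) hts
    rcases (R_nonneg (K := K) t).lt_or_eq with hR | hR
    · have h2 := h.geo hRs hR
      rw [h.R_vol t, h.R_vol ((1 / 2 : ℝ) • (ts + t)), ← ENNReal.ofReal_mul (Real.sqrt_nonneg _)]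
      refine ENNReal.ofReal_le_ofReal ?_
      refine le_trans ?_ (mul_le_mul_of_nonneg_left h2 (Real.sqrt_nonneg _))
      rw [← Real.sqrt_mul (by positivity)]
      refine Real.le_sqrt_of_sq_le ?_
      have h3 : Rv K t ≤ ε * S := le_of_lt ht
      calc Rv K t ^ 2 = Rv K t * Rv K t := sq _
        _ ≤ (ε * S) * Rv K t := mul_le_mul_of_nonneg_right h3 hR.le
        _ = (2 * ε) * ((S / 2) * Rv K t) := by ring
        _ ≤ (2 * ε) * (Rv K ts * Rv K t) := by gcongr
    · rw [h.R_vol t, ← hR]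
      simp
  calc ∫⁻ t in {t | Rv K t < ε * S}, volume (sl K t)
      ≤ ∫⁻ t in {t | Rv K t < ε * S}, ENNReal.ofReal (Real.sqrt (2 * ε)) *
          volume (sl K ((1 / 2 : ℝ) • (ts + t))) :=
        setLIntegral_mono' (h.R_meas measurableSet_Iio) hpt
    _ ≤ ∫⁻ t, ENNReal.ofReal (Real.sqrt (2 * ε)) *
          volume (sl K ((1 / 2 : ℝ) • (ts + t))) := setLIntegral_le_lintegral _ _
    _ = _ := by
        rw [lintegral_const_mul' _ _ ENNReal.ofReal_ne_top,
          lint_half (fun t => volume (sl K t)) ts, ← h.vol_fub, ← mul_assoc,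
          ← ENNReal.ofReal_mul (Real.sqrt_nonneg _)]
        simp

/-- conditional second moments of affine functions over the bulk of the base -/
theorem moment (h : Fb K) {S ε : ℝ} (hSp : 0 < S) (hS : ∀ t, Rv K t ≤ S) (hε : 0 < ε) {t0 : E d}
    (ht0 : ε * S ≤ Rv K t0)
    (ℓ : E N × E d → ℝ) (hm : Measurable ℓ)
    (hmid : ∀ z z', ℓ ((1 / 2 : ℝ) • (z + z')) = (ℓ z + ℓ z') / 2) :
    volume K * ∫⁻ p in sl K t0, ENNReal.ofReal (ℓ (p, t0) ^ 2) ≤
      volume (sl K t0) * (ENNReal.ofReal (8 * Real.sqrt (1 / ε) * 2 ^ d + 2) *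
        ∫⁻ z in K, ENNReal.ofReal (ℓ z ^ 2)) := by
  have hR0 : 0 < Rv K t0 := lt_of_lt_of_le (by positivity) ht0
  obtain ⟨q0, hq0⟩ : ∃ q0 : ℝ≥0∞, q0 = ∫⁻ p in sl K t0, ENNReal.ofReal (ℓ (p, t0) ^ 2) :=
    ⟨_, rfl⟩
  obtain ⟨Q, hQ⟩ : ∃ Q : E d → ℝ≥0∞, Q = fun t => ∫⁻ x in sl K t, ENNReal.ofReal (ℓ (x, t) ^ 2) :=
    ⟨_, rfl⟩
  have hF : Measurable fun z : E N × E d => ENNReal.ofReal (ℓ z ^ 2) :=
    (hm.pow_const 2).ennreal_ofReal
  have hQm : Measurable Q := by
    rw [hQ]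
    exact h.sec_meas _ hF
  rw [← hq0]
  have hpt : ∀ t, volume (sl K t) * q0 ≤ volume (sl K t0) *
      (ENNReal.ofReal (8 * Real.sqrt (1 / ε)) * Q ((1 / 2 : ℝ) • (t0 + t)) + 2 * Q t) := by
    intro t
    rcases (R_nonneg (K := K) t).lt_or_eq with hR | hR
    · obtain ⟨A, v, lam, hd⟩ := h.fib t0 t (ne_of_R hR0) (ne_of_R hR)
      have hpr : 0 < ∏ i, lam i := Finset.prod_pos fun i _ => hd.pos i
      have e1 : Q t = ENNReal.ofReal (∏ i, lam i) *
          ∫⁻ p in sl K t0, ENNReal.ofReal (ℓ (v + cj A lam p, t) ^ 2) := by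
        rw [hQ]
        exact h.dt_lint hd fun x => ENNReal.ofReal (ℓ (x, t) ^ 2)
      have e2 : ENNReal.ofReal (∏ i, (1 + lam i) / 2) *
          ∫⁻ p in sl K t0, ENNReal.ofReal (ℓ ((1 / 2 : ℝ) • (p + (v + cj A lam p)),
            (1 / 2 : ℝ) • (t0 + t)) ^ 2) ≤ Q ((1 / 2 : ℝ) • (t0 + t)) := by
        rw [hQ]
        exact h.mid_lint hd fun x => ENNReal.ofReal (ℓ (x, (1 / 2 : ℝ) • (t0 + t)) ^ 2)
      have e3 : q0 ≤ 8 * (∫⁻ p in sl K t0, ENNReal.ofReal (ℓ ((1 / 2 : ℝ) • (p +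
          (v + cj A lam p)), (1 / 2 : ℝ) • (t0 + t)) ^ 2)) +
          2 * ∫⁻ p in sl K t0, ENNReal.ofReal (ℓ (v + cj A lam p, t) ^ 2) := by
        rw [hq0, ← lintegral_const_mul' _ _ (by norm_num), ← lintegral_const_mul' _ _ (by norm_num),
          ← lintegral_add_right]
        · refine lintegral_mono fun p => ?_
          have e4 : ℓ ((1 / 2 : ℝ) • (p + (v + cj A lam p)), (1 / 2 : ℝ) • (t0 + t)) =
              (ℓ (p, t0) + ℓ (v + cj A lam p, t)) / 2 := by
            rw [← hmid]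
            rfl
          rw [e4]
          exact two_eight _ _
        · refine Measurable.const_mul (hF.comp ?_) _
          have : Measurable fun p : E N => (v + cj A lam p) :=
            ((cj A lam).continuous_of_finiteDimensional.measurable).const_add v
          exact this.prodMk measurable_const
      have e7 : ∏ i, lam i ≤ Real.sqrt (1 / ε) * ∏ i, (1 + lam i) / 2 := by
        have a1 := amgm1 lam hd.pos
        have a2 := h.dt_R hd
        have a3 := hS t
        refine le_trans ?_ (mul_le_mul_of_nonneg_left a1 (Real.sqrt_nonneg _))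
        rw [← Real.sqrt_mul (by positivity)]
        refine Real.le_sqrt_of_sq_le ?_
        have a4 : ∏ i, lam i ≤ 1 / ε := by
          rw [le_div_iff₀ hε]
          have a5 : (∏ i, lam i) * ε * S ≤ 1 * S := by
            calc (∏ i, lam i) * ε * S = (∏ i, lam i) * (ε * S) := by ring
              _ ≤ (∏ i, lam i) * Rv K t0 := by gcongr
              _ ≤ 1 * S := by rw [← a2, one_mul]; exact a3
          exact le_of_mul_le_mul_right a5 hSp
        calc (∏ i, lam i) ^ 2 = (∏ i, lam i) * ∏ i, lam i := sq _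
          _ ≤ 1 / ε * ∏ i, lam i := mul_le_mul_of_nonneg_right a4 hpr.le
      have hvt : volume (sl K t) = ENNReal.ofReal (∏ i, lam i) * volume (sl K t0) := by
        rw [h.R_vol t, h.R_vol t0, h.dt_R hd, ENNReal.ofReal_mul hpr.le]
      rw [hvt]
      calc ENNReal.ofReal (∏ i, lam i) * volume (sl K t0) * q0
          ≤ ENNReal.ofReal (∏ i, lam i) * volume (sl K t0) * (8 * (∫⁻ p in sl K t0,
            ENNReal.ofReal (ℓ ((1 / 2 : ℝ) • (p +
          (v + cj A lam p)), (1 / 2 : ℝ) • (t0 + t)) ^ 2)) +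
          2 * ∫⁻ p in sl K t0, ENNReal.ofReal (ℓ (v + cj A lam p, t) ^ 2)) :=
            mul_le_mul_right e3 _
        _ = volume (sl K t0) * (8 * (ENNReal.ofReal (∏ i, lam i) * (∫⁻ p in sl K t0,
            ENNReal.ofReal (ℓ ((1 / 2 : ℝ) • (p +
          (v + cj A lam p)), (1 / 2 : ℝ) • (t0 + t)) ^ 2))) + 2 * Q t) := by
            rw [e1]
            ring
        _ ≤ volume (sl K t0) * (ENNReal.ofReal (8 * Real.sqrt (1 / ε)) *
            Q ((1 / 2 : ℝ) • (t0 + t)) + 2 * Q t) := by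
            refine mul_le_mul_right (add_le_add_left ?_ _) _
            calc 8 * (ENNReal.ofReal (∏ i, lam i) * (∫⁻ p in sl K t0,
                  ENNReal.ofReal (ℓ ((1 / 2 : ℝ) • (p +
                  (v + cj A lam p)), (1 / 2 : ℝ) • (t0 + t)) ^ 2)))
                ≤ 8 * (ENNReal.ofReal (Real.sqrt (1 / ε) * ∏ i, (1 + lam i) / 2) *
                  (∫⁻ p in sl K t0, ENNReal.ofReal (ℓ ((1 / 2 : ℝ) • (p +
                  (v + cj A lam p)), (1 / 2 : ℝ) • (t0 + t)) ^ 2))) := by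
                  gcongr
              _ = ENNReal.ofReal (8 * Real.sqrt (1 / ε)) * (ENNReal.ofReal
                  (∏ i, (1 + lam i) / 2) * (∫⁻ p in sl K t0,
                  ENNReal.ofReal (ℓ ((1 / 2 : ℝ) • (p +
                  (v + cj A lam p)), (1 / 2 : ℝ) • (t0 + t)) ^ 2))) := by
                  rw [ENNReal.ofReal_mul (Real.sqrt_nonneg _), ENNReal.ofReal_mul (by norm_num)]
                  have e5 : ENNReal.ofReal 8 = (8 : ℝ≥0∞) := by norm_num
                  rw [e5]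
                  ring
              _ ≤ _ := mul_le_mul_right e2 _
    · rw [h.R_vol t, ← hR]
      simp
  calc volume K * q0 = ∫⁻ t, volume (sl K t) * q0 := by
        rw [h.vol_fub, lintegral_mul_const _ h.vol_meas]
    _ ≤ ∫⁻ t, volume (sl K t0) * (ENNReal.ofReal (8 * Real.sqrt (1 / ε)) *
      Q ((1 / 2 : ℝ) • (t0 + t)) + 2 * Q t) := lintegral_mono hpt
    _ = volume (sl K t0) * (ENNReal.ofReal (8 * Real.sqrt (1 / ε)) *
        (ENNReal.ofReal (2 ^ d) * ∫⁻ t, Q t) + 2 * ∫⁻ t, Q t) := by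
        rw [lintegral_const_mul' _ _ (h.sl_fin t0), lintegral_add_right _ (hQm.const_mul 2),
          lintegral_const_mul' _ _ ENNReal.ofReal_ne_top, lintegral_const_mul' _ _ (by norm_num),
          lint_half Q t0]
        simp
    _ = _ := by
        have e1 : ∫⁻ t, Q t = ∫⁻ z in K, ENNReal.ofReal (ℓ z ^ 2) := by
          rw [h.fub _ hF, hQ]
        have e2 : ENNReal.ofReal (8 * Real.sqrt (1 / ε) * 2 ^ d + 2) =
            ENNReal.ofReal (8 * Real.sqrt (1 / ε)) * ENNReal.ofReal (2 ^ d) + 2 := by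
          rw [ENNReal.ofReal_add (by positivity) (by norm_num), ENNReal.ofReal_mul (by positivity)]
          norm_num
        rw [e1, e2]
        ring

end Fb

end Pool.Agent.R754.KG
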