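import Pool.Agent.H59.L.S8.R754.KG.B
import Pool.Agent.H59.L.S8.Y506.PV.Stm

/-!
# Bodies fibred over a base of small dimension: displacement of the fibres
-/

set_option autoImplicit false

namespace Pool.Agent.R754.KG

open MeasureTheory Set Filter Topology
open scoped ENNReal InnerProductSpace
open Pool.Agent.Y506.RG (EW VW)
open Pool.Agent.Y506.PV (CcW ind)

variable {N d k : ℕ}

theorem EW_ind {n : ℕ} {A : Set (E n)} (hA : MeasurableSet A) (f : E n → ℝ) :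
    EW (ind A) f = ∫ x, f x ∂(un A) := by
  unfold EW un ind
  rw [integral_smul_measure, ENNReal.toReal_inv, smul_eq_mul, inv_mul_eq_div]
  have e1 : (fun x => f x * A.indicator (fun _ => (1 : ℝ)) x) = A.indicator f := by
    funext x
    by_cases hx : x ∈ A
    · simp [hx]
    · simp [hx]
  rw [e1, integral_indicator hA, integral_indicator hA]
  simp [Measure.real]

theorem VW_ind {n : ℕ} {A : Set (E n)} (hA : MeasurableSet A) (f : E n → ℝ) :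
    VW (ind A) f = (∫ x, f x ^ 2 ∂(un A)) - (∫ x, f x ∂(un A)) ^ 2 := by
  unfold VW
  rw [EW_ind hA, EW_ind hA]

/-! ### second moments of combinations of uncorrelated variables -/

theorem quad {Ω : Type} [MeasurableSpace Ω] (ν : Measure Ω) [IsProbabilityMeasure ν]
    (q : Fin N → Ω → ℝ) (h1 : ∀ i, Integrable (q i) ν)
    (h2 : ∀ i j, Integrable (fun ω => q i ω * q j ω) ν) (h0 : ∀ i, ∫ ω, q i ω ∂ν = 0)
    (hc : ∀ i j, i ≠ j → ∫ ω, q i ω * q j ω ∂ν = 0) (a : ℝ) (c : Fin N → ℝ) :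
    Integrable (fun ω => (a + ∑ i, q i ω * c i) ^ 2) ν ∧
    ∫ ω, (a + ∑ i, q i ω * c i) ^ 2 ∂ν = a ^ 2 + ∑ i, (∫ ω, q i ω ^ 2 ∂ν) * c i ^ 2 := by
  have e : (fun ω => (a + ∑ i, q i ω * c i) ^ 2) =
      fun ω => a ^ 2 + (2 * a * (∑ i, q i ω * c i) +
        ∑ i, ∑ j, (c i * c j) * (q i ω * q j ω)) := by
    funext ω
    have e1 : ∑ i, ∑ j, (c i * c j) * (q i ω * q j ω) = (∑ i, q i ω * c i) ^ 2 := by
      rw [sq, Finset.sum_mul_sum]
      refine Finset.sum_congr rfl fun i _ => Finset.sum_congr rfl fun j _ => ?_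
      ring
    rw [e1]
    ring
  have i1 : Integrable (fun ω => ∑ i, q i ω * c i) ν :=
    integrable_finsetSum _ fun i _ => (h1 i).mul_const _
  have i2 : Integrable (fun ω => ∑ i, ∑ j, (c i * c j) * (q i ω * q j ω)) ν :=
    integrable_finsetSum _ fun i _ => integrable_finsetSum _ fun j _ => (h2 i j).const_mul _
  have i3 : Integrable (fun ω => 2 * a * (∑ i, q i ω * c i) +
      ∑ i, ∑ j, (c i * c j) * (q i ω * q j ω)) ν := (i1.const_mul _).add i2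
  refine ⟨by rw [e]; exact (integrable_const _).add i3, ?_⟩
  rw [e, integral_add (integrable_const _) i3,
    integral_add (i1.const_mul _) i2, integral_const_mul,
    integral_finsetSum _ fun i _ => (h1 i).mul_const _,
    integral_finsetSum _ fun i _ => integrable_finsetSum _ fun j _ => (h2 i j).const_mul _]
  have e2 : ∑ i, ∫ ω, q i ω * c i ∂ν = 0 :=
    Finset.sum_eq_zero fun i _ => by rw [integral_mul_const, h0 i, zero_mul]
  rw [e2]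
  have e3 : ∀ i, ∫ ω, ∑ j, (c i * c j) * (q i ω * q j ω) ∂ν = (∫ ω, q i ω ^ 2 ∂ν) * c i ^ 2 := by
    intro i
    rw [integral_finsetSum _ fun j _ => (h2 i j).const_mul _, Finset.sum_eq_single i]
    · rw [integral_const_mul]
      simp only [← sq]
      ring
    · intro j _ hj
      rw [integral_const_mul, hc i j hj.symm, mul_zero]
    · intro h
      exact absurd (Finset.mem_univ i) h
  simp [e3]

theorem quadv {Ω : Type} [MeasurableSpace Ω] (ν : Measure Ω) [IsProbabilityMeasure ν]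
    (q : Fin N → Ω → ℝ) (h1 : ∀ i, Integrable (q i) ν)
    (h2 : ∀ i j, Integrable (fun ω => q i ω * q j ω) ν) (h0 : ∀ i, ∫ ω, q i ω ∂ν = 0)
    (hc : ∀ i j, i ≠ j → ∫ ω, q i ω * q j ω ∂ν = 0) (a : E k) (c : Fin N → E k) :
    Integrable (fun ω => ‖a + ∑ i, q i ω • c i‖ ^ 2) ν ∧
    ∫ ω, ‖a + ∑ i, q i ω • c i‖ ^ 2 ∂ν = ‖a‖ ^ 2 + ∑ i, (∫ ω, q i ω ^ 2 ∂ν) * ‖c i‖ ^ 2 := by
  have e : (fun ω => ‖a + ∑ i, q i ω • c i‖ ^ 2) =
      fun ω => ∑ j, (a j + ∑ i, q i ω * c i j) ^ 2 := by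
    funext ω
    rw [EuclideanSpace.real_norm_sq_eq]
    refine Finset.sum_congr rfl fun j _ => ?_
    simp
  have hq := fun j => quad ν q h1 h2 h0 hc (a j) fun i => c i j
  refine ⟨by rw [e]; exact integrable_finsetSum _ fun j _ => (hq j).1, ?_⟩
  rw [e, integral_finsetSum _ fun j _ => (hq j).1]
  simp only [fun j => (hq j).2]
  rw [Finset.sum_add_distrib, EuclideanSpace.real_norm_sq_eq]
  congr 1
  rw [Finset.sum_comm]
  refine Finset.sum_congr rfl fun i _ => ?_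
  rw [EuclideanSpace.real_norm_sq_eq, Finset.mul_sum]

/-- the diagonal entries for two fibres of comparable volume -/
theorem etas {S ε R0 R1 : ℝ} (hS : 0 < S) (hε : 0 < ε) (lam : Fin N → ℝ) (h1 : ∀ i, 0 < lam i)
    (hp0 : ε * S ≤ R0) (hp1 : ε * S ≤ R1) (hR : R1 = (∏ i, lam i) * R0)
    (hm : (∏ i, (1 + lam i) / 2) * R0 ≤ S) :
    ∑ i, ((lam i - 1) / (1 + lam i)) ^ 2 ≤ 2 * Real.log (1 / ε) := by
  have hR0 : 0 < R0 := lt_of_lt_of_le (by positivity) hp0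
  have hε2 : (ε * S) * (ε * S) ≤ S ^ 2 * Real.exp (-∑ i, ((lam i - 1) / (1 + lam i)) ^ 2) := by
    calc (ε * S) * (ε * S) ≤ R0 * R1 := mul_le_mul hp0 hp1 (by positivity) hR0.le
      _ = R0 ^ 2 * ∏ i, lam i := by rw [hR]; ring
      _ ≤ R0 ^ 2 * ∏ i, ((1 + lam i) / 2) ^ 2 * Real.exp (-((lam i - 1) / (1 + lam i)) ^ 2) := by
          refine mul_le_mul_of_nonneg_left ?_ (sq_nonneg _)
          refine Finset.prod_le_prod (fun i _ => (h1 i).le) fun i _ => ?_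
          have a1 := h1 i
          have hpos : 0 < 1 + lam i := by positivity
          have e1 : lam i = ((1 + lam i) / 2) ^ 2 *
              (1 - ((lam i - 1) / (1 + lam i)) ^ 2) := by
            field_simp
            ring
          have e2 : ((1 + lam i) / 2) ^ 2 * (1 - ((lam i - 1) / (1 + lam i)) ^ 2) ≤
              ((1 + lam i) / 2) ^ 2 * Real.exp (-((lam i - 1) / (1 + lam i)) ^ 2) := by
            refine mul_le_mul_of_nonneg_left ?_ (sq_nonneg _)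
            have := Real.add_one_le_exp (-((lam i - 1) / (1 + lam i)) ^ 2)
            linarith
          exact e1.le.trans e2
      _ = ((∏ i, (1 + lam i) / 2) * R0) ^ 2 *
          Real.exp (-∑ i, ((lam i - 1) / (1 + lam i)) ^ 2) := by
          rw [Finset.prod_mul_distrib, Finset.prod_pow, ← Real.exp_sum, Finset.sum_neg_distrib]
          ring
      _ ≤ _ := by
          have hp : 0 ≤ (∏ i, (1 + lam i) / 2) * R0 :=
            mul_nonneg (Finset.prod_nonneg fun i _ => by have := h1 i; positivity) hR0.le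
          gcongr
  have h3 : ε ^ 2 ≤ Real.exp (-∑ i, ((lam i - 1) / (1 + lam i)) ^ 2) := by
    have h4 : S ^ 2 * ε ^ 2 ≤
        S ^ 2 * Real.exp (-∑ i, ((lam i - 1) / (1 + lam i)) ^ 2) := by
      calc S ^ 2 * ε ^ 2 = (ε * S) * (ε * S) := by ring
        _ ≤ _ := hε2
    exact le_of_mul_le_mul_left h4 (by positivity)
  have h5 := (Real.log_le_iff_le_exp (by positivity)).2 h3
  rw [Real.log_pow] at h5
  rw [one_div, Real.log_inv]
  push_cast at h5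
  linarith

/-- two fibres are close to each other in the mean -/
theorem disp {Ω : Type} [MeasurableSpace Ω] (ν : Measure Ω) [IsProbabilityMeasure ν]
    (q : Fin N → Ω → ℝ) (h1 : ∀ i, Integrable (q i) ν)
    (h2 : ∀ i j, Integrable (fun ω => q i ω * q j ω) ν) (h0 : ∀ i, ∫ ω, q i ω ∂ν = 0)
    (hc : ∀ i j, i ≠ j → ∫ ω, q i ω * q j ω ∂ν = 0) (b : Fin N → E k) (y0 y1 : E k)
    (r0 r1 : Fin N → ℝ) (hr0 : ∀ i, 0 < r0 i) (hr1 : ∀ i, 0 < r1 i) (Λ S1 : ℝ) (hS1 : 0 ≤ S1)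
    (hΛ : ∑ i, ((r1 i - r0 i) / (r0 i + r1 i)) ^ 2 ≤ Λ)
    (g0 : ∀ θ : E k, ‖θ‖ = 1 → ∫ ω, ⟪y0 + ∑ i, q i ω • (r0 i • b i), θ⟫_ℝ ^ 2 ∂ν ≤ S1)
    (g1 : ∀ θ : E k, ‖θ‖ = 1 → ∫ ω, ⟪y1 + ∑ i, q i ω • (r1 i • b i), θ⟫_ℝ ^ 2 ∂ν ≤ S1) :
    Integrable (fun ω => ‖(y1 + ∑ i, q i ω • (r1 i • b i)) -
      (y0 + ∑ i, q i ω • (r0 i • b i))‖ ^ 2) ν ∧
    ∫ ω, ‖(y1 + ∑ i, q i ω • (r1 i • b i)) - (y0 + ∑ i, q i ω • (r0 i • b i))‖ ^ 2 ∂ν ≤
      4 * (1 + Λ) * S1 := by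
  have hVn : ∀ i, 0 ≤ ∫ ω, q i ω ^ 2 ∂ν := fun i => integral_nonneg fun ω => sq_nonneg _
  -- consequences of the moment bounds
  have hcons : ∀ (y : E k) (r : Fin N → ℝ),
      (∀ θ : E k, ‖θ‖ = 1 → ∫ ω, ⟪y + ∑ i, q i ω • (r i • b i), θ⟫_ℝ ^ 2 ∂ν ≤ S1) →
      ‖y‖ ^ 2 ≤ S1 ∧ ∀ i, (∫ ω, q i ω ^ 2 ∂ν) * (r i ^ 2 * ‖b i‖ ^ 2) ≤ S1 := by
    intro y r hg
    have hg' : ∀ θ : E k, ‖θ‖ = 1 →
        ⟪y, θ⟫_ℝ ^ 2 + ∑ i, (∫ ω, q i ω ^ 2 ∂ν) * (r i * ⟪b i, θ⟫_ℝ) ^ 2 ≤ S1 := by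
      intro θ hθ
      have h3 := hg θ hθ
      have e3 : (fun ω => ⟪y + ∑ i, q i ω • (r i • b i), θ⟫_ℝ ^ 2) =
          fun ω => (⟪y, θ⟫_ℝ + ∑ i, q i ω * (r i * ⟪b i, θ⟫_ℝ)) ^ 2 := by
        funext ω
        rw [inner_add_left, sum_inner]
        simp only [real_inner_smul_left]
      rw [e3, (quad ν q h1 h2 h0 hc ⟪y, θ⟫_ℝ fun i => r i * ⟪b i, θ⟫_ℝ).2] at h3
      exact h3
    constructor
    · by_cases hy : y = 0
      · rw [hy]
        simpa using hS1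
      · have hyn : 0 < ‖y‖ := norm_pos_iff.2 hy
        have hn : ‖(‖y‖⁻¹ • y)‖ = 1 := by
          rw [norm_smul, norm_inv, norm_norm, inv_mul_cancel₀ hyn.ne']
        have h3 := hg' _ hn
        have h4 : ⟪y, ‖y‖⁻¹ • y⟫_ℝ = ‖y‖ := by
          rw [real_inner_smul_right, real_inner_self_eq_norm_sq]
          field_simp
        rw [h4] at h3
        have h5 : 0 ≤ ∑ i, (∫ ω, q i ω ^ 2 ∂ν) * (r i * ⟪b i, ‖y‖⁻¹ • y⟫_ℝ) ^ 2 :=
          Finset.sum_nonneg fun i _ => mul_nonneg (hVn i) (sq_nonneg _)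
        linarith
    · intro i
      by_cases hy : b i = 0
      · rw [hy]
        simpa using hS1
      · have hyn : 0 < ‖b i‖ := norm_pos_iff.2 hy
        have hn : ‖(‖b i‖⁻¹ • b i)‖ = 1 := by
          rw [norm_smul, norm_inv, norm_norm, inv_mul_cancel₀ hyn.ne']
        have h3 := hg' _ hn
        have h4 : ⟪b i, ‖b i‖⁻¹ • b i⟫_ℝ = ‖b i‖ := by
          rw [real_inner_smul_right, real_inner_self_eq_norm_sq]
          field_simp
        have h5 : (∫ ω, q i ω ^ 2 ∂ν) * (r i * ⟪b i, ‖b i‖⁻¹ • b i⟫_ℝ) ^ 2 ≤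
            ∑ j, (∫ ω, q j ω ^ 2 ∂ν) * (r j * ⟪b j, ‖b i‖⁻¹ • b i⟫_ℝ) ^ 2 :=
          Finset.single_le_sum (f := fun j => (∫ ω, q j ω ^ 2 ∂ν) *
            (r j * ⟪b j, ‖b i‖⁻¹ • b i⟫_ℝ) ^ 2)
            (fun j _ => mul_nonneg (hVn j) (sq_nonneg _)) (Finset.mem_univ i)
        rw [h4, mul_pow] at h5
        have h6 := sq_nonneg ⟪y, ‖b i‖⁻¹ • b i⟫_ℝ
        linarith
  obtain ⟨a0, c0⟩ := hcons y0 r0 g0
  obtain ⟨a1, c1⟩ := hcons y1 r1 g1
  have e : (fun ω => ‖(y1 + ∑ i, q i ω • (r1 i • b i)) -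
      (y0 + ∑ i, q i ω • (r0 i • b i))‖ ^ 2) =
      fun ω => ‖(y1 - y0) + ∑ i, q i ω • ((r1 i - r0 i) • b i)‖ ^ 2 := by
    funext ω
    congr 2
    simp only [sub_smul, smul_sub, Finset.sum_sub_distrib]
    abel
  obtain ⟨hI, hE⟩ := quadv ν q h1 h2 h0 hc (y1 - y0) fun i => (r1 i - r0 i) • b i
  refine ⟨by rw [e]; exact hI, ?_⟩
  rw [e, hE]
  have h3 : ‖y1 - y0‖ ^ 2 ≤ 4 * S1 := by
    have h4 := norm_sub_le y1 y0
    have h5 : ‖y1 - y0‖ ^ 2 ≤ (‖y1‖ + ‖y0‖) ^ 2 := by gcongr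
    nlinarith [sq_nonneg (‖y1‖ - ‖y0‖)]
  have h4 : ∀ i, (∫ ω, q i ω ^ 2 ∂ν) * ‖(r1 i - r0 i) • b i‖ ^ 2 ≤
      4 * ((r1 i - r0 i) / (r0 i + r1 i)) ^ 2 * S1 := by
    intro i
    have p0 := hr0 i
    have p1 := hr1 i
    have hp : 0 < r0 i + r1 i := by positivity
    have h5 : (r1 i - r0 i) ^ 2 = ((r1 i - r0 i) / (r0 i + r1 i)) ^ 2 * (r0 i + r1 i) ^ 2 := by
      field_simp
    rw [norm_smul, mul_pow, Real.norm_eq_abs, sq_abs, h5]
    have h6 : (r0 i + r1 i) ^ 2 ≤ 2 * r0 i ^ 2 + 2 * r1 i ^ 2 := by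
      nlinarith [sq_nonneg (r0 i - r1 i)]
    calc (∫ ω, q i ω ^ 2 ∂ν) * (((r1 i - r0 i) / (r0 i + r1 i)) ^ 2 * (r0 i + r1 i) ^ 2 *
          ‖b i‖ ^ 2)
        ≤ (∫ ω, q i ω ^ 2 ∂ν) * (((r1 i - r0 i) / (r0 i + r1 i)) ^ 2 *
          (2 * r0 i ^ 2 + 2 * r1 i ^ 2) * ‖b i‖ ^ 2) := by
          refine mul_le_mul_of_nonneg_left ?_ (hVn i)
          gcongr
      _ = ((r1 i - r0 i) / (r0 i + r1 i)) ^ 2 *
          (2 * ((∫ ω, q i ω ^ 2 ∂ν) * (r0 i ^ 2 * ‖b i‖ ^ 2)) +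
          2 * ((∫ ω, q i ω ^ 2 ∂ν) * (r1 i ^ 2 * ‖b i‖ ^ 2))) := by ring
      _ ≤ ((r1 i - r0 i) / (r0 i + r1 i)) ^ 2 * (2 * S1 + 2 * S1) := by
          refine mul_le_mul_of_nonneg_left ?_ (sq_nonneg _)
          have := c0 i
          have := c1 i
          linarith
      _ = _ := by ring
  have h5 : ∑ i, (∫ ω, q i ω ^ 2 ∂ν) * ‖(r1 i - r0 i) • b i‖ ^ 2 ≤ 4 * Λ * S1 := by
    calc ∑ i, (∫ ω, q i ω ^ 2 ∂ν) * ‖(r1 i - r0 i) • b i‖ ^ 2
        ≤ ∑ i, 4 * ((r1 i - r0 i) / (r0 i + r1 i)) ^ 2 * S1 := Finset.sum_le_sum fun i _ => h4 i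
      _ = 4 * (∑ i, ((r1 i - r0 i) / (r0 i + r1 i)) ^ 2) * S1 := by
          rw [← Finset.sum_mul, ← Finset.mul_sum]
      _ ≤ _ := by gcongr
  linarith

/-! ### concentration of one fibre -/

/-- concentration for linear images of arbitrary dimension -/
theorem fibc {κ δ : ℝ} {L : Set (E N)} (hc : CcW κ δ (ind L)) (T0 : E N →ₗ[ℝ] E k) (y0 : E k)
    (s : ℝ) (hs : 0 < s) (h : ∀ θ : E k, ‖θ‖ = 1 → VW (ind L) (fun p => ⟪T0 p, θ⟫_ℝ) ≤ s)
    (v : E k → ℝ) (hv : ContDiff ℝ 1 v) (hb : ∀ y, |v y| ≤ 1)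
    (hd : ∀ y, ‖fderiv ℝ v y‖ ≤ κ / Real.sqrt s) :
    VW (ind L) (fun p => v (y0 + T0 p)) ≤ δ := by
  obtain ⟨k', hk'⟩ : ∃ k', k' = Module.finrank ℝ (LinearMap.range T0) := ⟨_, rfl⟩
  have hle : k' ≤ N := by
    rw [hk']
    have := LinearMap.finrank_range_le T0
    simpa using this
  let ob : OrthonormalBasis (Fin k') ℝ (LinearMap.range T0) :=
    (stdOrthonormalBasis ℝ (LinearMap.range T0)).reindex (finCongr hk'.symm)
  let ι : E k' →ₗᵢ[ℝ] E k := (LinearMap.range T0).subtypeₗᵢ.comp ob.repr.symm.toLinearIsometry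
  let T1 : E N →ₗ[ℝ] E k' := ob.repr.toLinearEquiv.toLinearMap ∘ₗ T0.rangeRestrict
  have hT : ∀ p, ι (T1 p) = T0 p := by
    intro p
    simp [ι, T1]
  have key := hc k' hle T1 s hs (fun θ hθ => by
    have h1 := h (ι θ) (by rw [ι.norm_map]; exact hθ)
    have e : (fun p => ⟪T1 p, θ⟫_ℝ) = fun p => ⟪T0 p, ι θ⟫_ℝ := by
      funext p
      rw [← hT p, ι.inner_map_map]
    rw [e]
    exact h1) (fun y => v (y0 + ι y)) (by
      exact hv.comp (contDiff_const.add ι.contDiff)) (fun y => hb _) (fun y => by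
      have h2 : HasFDerivAt (fun y => y0 + ι y) ι.toContinuousLinearMap y :=
        (ι.toContinuousLinearMap.hasFDerivAt).const_add y0
      have h3 : HasFDerivAt v (fderiv ℝ v (y0 + ι y)) (y0 + ι y) :=
        ((hv.differentiable one_ne_zero) _).hasFDerivAt
      have h4 := (h3.comp y h2).fderiv
      have e4 : (v ∘ fun y => y0 + ι y) = fun y => v (y0 + ι y) := rfl
      rw [e4] at h4
      rw [h4]
      refine (ContinuousLinearMap.opNorm_comp_le _ _).trans ?_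
      have h5 : ‖ι.toContinuousLinearMap‖ ≤ 1 := ι.norm_toContinuousLinearMap_le
      calc ‖fderiv ℝ v (y0 + ι y)‖ * ‖ι.toContinuousLinearMap‖
          ≤ ‖fderiv ℝ v (y0 + ι y)‖ * 1 := mul_le_mul_of_nonneg_left h5 (norm_nonneg _)
        _ ≤ _ := by rw [mul_one]; exact hd _)
  have e : (fun p => v (y0 + ι (T1 p))) = fun p => v (y0 + T0 p) := by
    funext p
    rw [hT p]
  rw [e] at key
  exact key

end Pool.Agent.R754.KG
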