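import Pool.Agent.H59.L.S8.R754.KG.C

/-!
# Bodies fibred over a base of small dimension: the estimate for one fibre
-/

set_option autoImplicit false

namespace Pool.Agent.R754.KG

open MeasureTheory Set Filter Topology
open scoped ENNReal InnerProductSpace
open Pool.Agent.Y506.RG (EW VW)
open Pool.Agent.Y506.PV (CcW ind)

variable {N d k : ℕ}

theorem un_lint_ofReal {V : Type} [NormedAddCommGroup V] [ProperSpace V] [MeasureSpace V]
    [BorelSpace V] [IsFiniteMeasureOnCompacts (volume : Measure V)] {A : Set V}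
    (h0 : volume A ≠ 0) (hb : Bornology.IsBounded A) {f : V → ℝ} (hf : Continuous f)
    (hn : ∀ x, 0 ≤ f x) :
    ∫⁻ x in A, ENNReal.ofReal (f x) = volume A * ENNReal.ofReal (∫ x, f x ∂(un A)) := by
  rw [un_lint h0 hb.measure_lt_top.ne,
    ofReal_integral_eq_lintegral_ofReal (un_int h0 hb hf) (Eventually.of_forall hn)]

theorem var_le {Ω : Type} [MeasurableSpace Ω] (ν : Measure Ω) [IsProbabilityMeasure ν]
    (f : Ω → ℝ) (h1 : Integrable f ν) (h2 : Integrable (fun ω => f ω ^ 2) ν) (c : ℝ) :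
    Integrable (fun ω => (f ω - c) ^ 2) ν ∧
    ∫ ω, (f ω - c) ^ 2 ∂ν = ((∫ ω, f ω ^ 2 ∂ν) - (∫ ω, f ω ∂ν) ^ 2) + ((∫ ω, f ω ∂ν) - c) ^ 2 := by
  have e : (fun ω => (f ω - c) ^ 2) = fun ω => f ω ^ 2 + (-(2 * c) * f ω + c ^ 2) := by
    funext ω
    ring
  have h3 : Integrable (fun ω => -(2 * c) * f ω + c ^ 2) ν :=
    (h1.const_mul _).add (integrable_const _)
  refine ⟨by rw [e]; exact h2.add h3, ?_⟩
  rw [e, integral_add h2 h3, integral_add (h1.const_mul _) (integrable_const _),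
    integral_const_mul]
  simp
  ring

/-- decomposition along the coordinates `A x` -/
theorem dec (T : E N × E d →ₗ[ℝ] E k) (A : E N ≃ₗ[ℝ] E N) (v w : E N) (lam : Fin N → ℝ) (t : E d)
    (p : E N) :
    T (v + cj A lam p, t) = T (v + A.symm (dg lam w), t) +
      ∑ i, (A p i - w i) • (lam i • T (A.symm (EuclideanSpace.single i (1 : ℝ)), 0)) := by
  have e0 : dg lam (A p) = dg lam w +
      ∑ i, (A p i - w i) • (lam i • (EuclideanSpace.single i (1 : ℝ))) := by
    ext j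
    simp only [PiLp.add_apply, dg_apply, WithLp.ofLp_sum, Finset.sum_apply,
      WithLp.ofLp_smul, Pi.smul_apply, PiLp.single_apply, smul_eq_mul]
    simp
    ring
  have e : (v + cj A lam p, t) = (v + A.symm (dg lam w), t) +
      ∑ i, (A p i - w i) • (lam i • ((A.symm (EuclideanSpace.single i (1 : ℝ)), 0) :
        E N × E d)) := by
    refine Prod.ext ?_ ?_
    · rw [Prod.fst_add, Prod.fst_sum, cj_apply, e0, map_add, map_sum]
      simp only [map_smul, Prod.smul_fst, add_assoc]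
    · rw [Prod.snd_add, Prod.snd_sum]
      simp
  rw [e, map_add, map_sum]
  simp only [map_smul]

/-- the estimate for the fibre over `t1`, relative to the one over `t0` -/
theorem point {K : Set (E N × E d)} (h : Fb K) {κ0 δ0 : ℝ}
    (hcc : ∀ t, volume (sl K t) ≠ 0 → CcW κ0 δ0 (ind (sl K t)))
    (T : E N × E d →ₗ[ℝ] E k) (s C1 S ε κ : ℝ) (hs : 0 < s)
    (hC1 : C1 = 8 * Real.sqrt (1 / ε) * 2 ^ d + 2) (hε : 0 < ε) (hSp : 0 < S)
    (hS : ∀ t, Rv K t ≤ S) (hκ : 0 < κ) (hκ0 : κ * Real.sqrt C1 ≤ κ0)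
    (hT : ∀ θ : E k, ‖θ‖ = 1 →
      (∫ z, ⟪T z, θ⟫_ℝ ^ 2 ∂(un K)) - (∫ z, ⟪T z, θ⟫_ℝ ∂(un K)) ^ 2 ≤ s)
    (v : E k → ℝ) (hv : ContDiff ℝ 1 v) (hvb : ∀ y, |v y| ≤ 1)
    (hd : ∀ y, ‖fderiv ℝ v y‖ ≤ κ / Real.sqrt s)
    {t0 t1 : E d} (b0 : ε * S ≤ Rv K t0) (b1 : ε * S ≤ Rv K t1) :
    ∫ p, (v (T (p, t1)) - ∫ p, v (T (p, t0)) ∂(un (sl K t0))) ^ 2 ∂(un (sl K t1)) ≤
      δ0 + 4 * (1 + 2 * Real.log (1 / ε)) * C1 * κ ^ 2 := by
  have hR0 : 0 < Rv K t0 := lt_of_lt_of_le (by positivity) b0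
  have hR1 : 0 < Rv K t1 := lt_of_lt_of_le (by positivity) b1
  have hL0 : volume (sl K t0) ≠ 0 := Fb.ne_of_R hR0
  have hL1 : volume (sl K t1) ≠ 0 := Fb.ne_of_R hR1
  have hB0 := h.sl_bd t0
  have hB1 := h.sl_bd t1
  have hK0 : volume K ≠ 0 := h.pos.ne'
  have hν0 : IsProbabilityMeasure (un (sl K t0)) := un_prob hL0 (h.sl_fin t0)
  have hν1 : IsProbabilityMeasure (un (sl K t1)) := un_prob hL1 (h.sl_fin t1)
  have hμ : IsProbabilityMeasure (un K) := un_prob hK0 h.kfin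
  have hC1p : 0 < C1 := by rw [hC1]; positivity
  have hTc : Continuous T := T.continuous_of_finiteDimensional
  obtain ⟨A, m, lam, hdr⟩ := h.fib t0 t1 hL0 hL1
  have hAc : Continuous A := A.toLinearMap.continuous_of_finiteDimensional
  have hcjc : Continuous (cj A lam) := (cj A lam).continuous_of_finiteDimensional
  -- the mean
  obtain ⟨cb, hcb⟩ : ∃ cb : E k, ∀ θ : E k, ∫ z, ⟪T z, θ⟫_ℝ ∂(un K) = ⟪cb, θ⟫_ℝ := by
    refine ⟨WithLp.toLp 2 fun j => ∫ z, T z j ∂(un K), fun θ => ?_⟩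
    have hj : ∀ j, Integrable (fun z => T z j) (un K) := fun j =>
      un_int hK0 h.bdd (by fun_prop)
    simp only [PiLp.inner_apply, RCLike.inner_apply, conj_trivial]
    rw [integral_finsetSum _ fun j _ => (hj j).const_mul _]
    refine Finset.sum_congr rfl fun j _ => ?_
    rw [integral_const_mul]
  have hsec : ∀ θ : E k, ‖θ‖ = 1 → ∫ z, ⟪T z - cb, θ⟫_ℝ ^ 2 ∂(un K) ≤ s := by
    intro θ hθ
    have e1 : (fun z => ⟪T z - cb, θ⟫_ℝ ^ 2) = fun z => (⟪T z, θ⟫_ℝ - ⟪cb, θ⟫_ℝ) ^ 2 := by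
      funext z
      rw [inner_sub_left]
    rw [e1, (var_le (un K) (fun z => ⟪T z, θ⟫_ℝ) (un_int hK0 h.bdd (by fun_prop))
      (un_int hK0 h.bdd (by fun_prop)) _).2, hcb θ]
    have := hT θ hθ
    rw [hcb θ] at this
    simpa using this
  have hTt : ∀ t : E d, Continuous fun p : E N => T (p, t) := fun t => by
    have : Continuous fun p : E N => (p, t) := by fun_prop
    exact hTc.comp this
  -- moments over one fibre
  have hmom : ∀ t : E d, ε * S ≤ Rv K t →
      ∀ θ : E k, ‖θ‖ = 1 → ∫ p, ⟪T (p, t) - cb, θ⟫_ℝ ^ 2 ∂(un (sl K t)) ≤ C1 * s := by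
    intro t hR θ hθ
    have hTt' := hTt t
    have hne : volume (sl K t) ≠ 0 := Fb.ne_of_R (lt_of_lt_of_le (by positivity) hR)
    have h2 := h.moment hSp hS hε hR (fun z => ⟪T z - cb, θ⟫_ℝ)
      (Continuous.measurable (by fun_prop)) (fun z z' => by
        simp only [map_smul, map_add, inner_sub_left, real_inner_smul_left, inner_add_left]
        ring)
    rw [← hC1, un_lint_ofReal hne (h.sl_bd t) (by fun_prop) (fun p => sq_nonneg _),
      un_lint_ofReal hK0 h.bdd (by fun_prop) (fun p => sq_nonneg _)] at h2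
    have h3 : volume K * volume (sl K t) * ENNReal.ofReal
        (∫ p, ⟪T (p, t) - cb, θ⟫_ℝ ^ 2 ∂(un (sl K t))) ≤ volume K * volume (sl K t) *
        ENNReal.ofReal (C1 * ∫ z, ⟪T z - cb, θ⟫_ℝ ^ 2 ∂(un K)) := by
      rw [ENNReal.ofReal_mul hC1p.le]
      calc _ = volume K * (volume (sl K t) * ENNReal.ofReal
            (∫ p, ⟪T (p, t) - cb, θ⟫_ℝ ^ 2 ∂(un (sl K t)))) := by ring
        _ ≤ _ := h2
        _ = _ := by ring
    have h4 := (ENNReal.mul_le_mul_iff_right (mul_ne_zero hK0 hne)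
      (ENNReal.mul_ne_top h.kfin (h.sl_fin t))).1 h3
    have h5 : 0 ≤ C1 * ∫ z, ⟪T z - cb, θ⟫_ℝ ^ 2 ∂(un K) :=
      mul_nonneg hC1p.le (integral_nonneg fun z => sq_nonneg _)
    have h6 := (ENNReal.ofReal_le_ofReal_iff h5).1 h4
    exact h6.trans (mul_le_mul_of_nonneg_left (hsec θ hθ) hC1p.le)
  -- integrals over the second fibre
  have hp : 0 < ∏ i, lam i := Finset.prod_pos fun i _ => hdr.pos i
  have hpush : ∀ F : E N → ℝ, Continuous F → (∀ x, 0 ≤ F x) →
      ∫ x, F x ∂(un (sl K t1)) = ∫ p, F (m + cj A lam p) ∂(un (sl K t0)) := by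
    intro F hF hFn
    have h2 := h.dt_lint hdr fun x => ENNReal.ofReal (F x)
    have hF' : Continuous fun p => F (m + cj A lam p) := by fun_prop
    rw [un_lint_ofReal hL1 hB1 hF hFn, un_lint_ofReal hL0 hB0 hF' (fun x => hFn _)] at h2
    have hvt : volume (sl K t1) = ENNReal.ofReal (∏ i, lam i) * volume (sl K t0) := by
      rw [h.R_vol t1, h.R_vol t0, h.dt_R hdr, ENNReal.ofReal_mul hp.le]
    rw [← mul_assoc, ← hvt] at h2
    have h3 := (ENNReal.mul_right_inj hL1 (h.sl_fin t1)).1 h2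
    have i1 : 0 ≤ ∫ x, F x ∂(un (sl K t1)) := integral_nonneg hFn
    have i2 : 0 ≤ ∫ p, F (m + cj A lam p) ∂(un (sl K t0)) := integral_nonneg fun x => hFn _
    rw [← ENNReal.toReal_ofReal i1, h3, ENNReal.toReal_ofReal i2]
  -- the coordinates
  obtain ⟨pb, hpb⟩ : ∃ pb : E N, ∀ i, ∫ p : E N, A p i ∂(un (sl K t0)) = pb i :=
    ⟨WithLp.toLp 2 fun i => ∫ p : E N, A p i ∂(un (sl K t0)), fun i => rfl⟩
  have q1 : ∀ i, Integrable (fun p : E N => A p i) (un (sl K t0)) := fun i =>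
    un_int hL0 hB0 (by fun_prop)
  have q1' : ∀ i, Integrable (fun p : E N => A p i - pb i) (un (sl K t0)) := fun i =>
    un_int hL0 hB0 (by fun_prop)
  have q2 : ∀ i j, Integrable (fun p : E N => (A p i - pb i) * (A p j - pb j)) (un (sl K t0)) :=
    fun i j => un_int hL0 hB0 (by fun_prop)
  have q0 : ∀ i, ∫ p : E N, (A p i - pb i) ∂(un (sl K t0)) = 0 := by
    intro i
    rw [integral_sub (q1 i) (integrable_const _), hpb i]
    simp
  have qc : ∀ i j, i ≠ j → ∫ p : E N, (A p i - pb i) * (A p j - pb j) ∂(un (sl K t0)) = 0 := by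
    intro i j hij
    have e1 : (fun p : E N => (A p i - pb i) * (A p j - pb j)) =
        fun p : E N => A p i * A p j + ((-pb j) * A p i + ((-pb i) * A p j + pb i * pb j)) := by
      funext p
      ring
    have i1 : Integrable (fun p : E N => A p i * A p j) (un (sl K t0)) :=
      un_int hL0 hB0 (by fun_prop)
    have i2 : Integrable (fun p : E N => (-pb i) * A p j + pb i * pb j) (un (sl K t0)) :=
      un_int hL0 hB0 (by fun_prop)
    have i3 : Integrable (fun p : E N => (-pb j) * A p i + ((-pb i) * A p j + pb i * pb j))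
        (un (sl K t0)) := un_int hL0 hB0 (by fun_prop)
    rw [e1, integral_add i1 i3, integral_add ((q1 i).const_mul _) i2,
      integral_add ((q1 j).const_mul _) (integrable_const _), integral_const_mul,
      integral_const_mul, hdr.unc i j hij, hpb i, hpb j]
    simp
    ring
  -- displacement
  have hc1 : ∀ p : E N, T (m + cj A lam p, t1) - cb = (T (m + A.symm (dg lam pb), t1) - cb) +
        ∑ i, (A p i - pb i) • (lam i • T (A.symm (EuclideanSpace.single i (1 : ℝ)), 0)) := by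
    intro p
    rw [dec T A m pb lam t1 p]
    abel
  have hc0 : ∀ p : E N, T (p, t0) - cb = (T (A.symm pb, t0) - cb) +
        ∑ i, (A p i - pb i) • ((1 : ℝ) • T (A.symm (EuclideanSpace.single i (1 : ℝ)), 0)) := by
    intro p
    have e1 : ∀ q : E N, dg (fun _ => (1 : ℝ)) q = q := by
      intro q
      ext i
      simp
    have h2 := dec T A 0 pb (fun _ => 1) t0 p
    rw [cj_apply, e1, e1, LinearEquiv.symm_apply_apply, zero_add, zero_add] at h2
    rw [h2]
    abel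
  have hη := etas hSp hε lam hdr.pos b0 b1 (h.dt_R hdr) ((h.mid_R hdr).trans (hS _))
  have hη' : ∑ i, ((lam i - 1) / ((fun _ => (1 : ℝ)) i + lam i)) ^ 2 ≤
      2 * Real.log (1 / ε) := hη
  have hdisp := disp (un (sl K t0)) (fun i p => A p i - pb i) q1' q2 q0 qc
    (fun i => T (A.symm (EuclideanSpace.single i (1 : ℝ)), 0)) (T (A.symm pb, t0) - cb)
    (T (m + A.symm (dg lam pb), t1) - cb) (fun _ => 1) lam (fun _ => one_pos) hdr.pos _ (C1 * s)
    (by positivity) hη'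
    (fun θ hθ => by
      have h2 := hmom t0 b0 θ hθ
      have e3 : (fun p => ⟪T (p, t0) - cb, θ⟫_ℝ ^ 2) = fun p =>
          ⟪(T (A.symm pb, t0) - cb) + ∑ i, (A p i - pb i) •
            ((1 : ℝ) • T (A.symm (EuclideanSpace.single i (1 : ℝ)), 0)), θ⟫_ℝ ^ 2 := by
        funext p
        rw [hc0 p]
      rw [e3] at h2
      exact h2)
    (fun θ hθ => by
      have h2 := hmom t1 b1 θ hθ
      have hTt1 := hTt t1
      rw [hpush (fun p => ⟪T (p, t1) - cb, θ⟫_ℝ ^ 2) (by fun_prop) (fun p => sq_nonneg _)] at h2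
      have e3 : (fun p => ⟪T (m + cj A lam p, t1) - cb, θ⟫_ℝ ^ 2) = fun p =>
          ⟪(T (m + A.symm (dg lam pb), t1) - cb) + ∑ i, (A p i - pb i) •
            (lam i • T (A.symm (EuclideanSpace.single i (1 : ℝ)), 0)), θ⟫_ℝ ^ 2 := by
        funext p
        rw [hc1 p]
      rw [e3] at h2
      exact h2)
  have e2 : (fun p : E N => ‖((T (m + A.symm (dg lam pb), t1) - cb) +
        ∑ i, (A p i - pb i) • (lam i • T (A.symm (EuclideanSpace.single i (1 : ℝ)), 0))) -
      ((T (A.symm pb, t0) - cb) +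
        ∑ i, (A p i - pb i) • ((1 : ℝ) • T (A.symm (EuclideanSpace.single i (1 : ℝ)), 0)))‖ ^ 2) =
      fun p => ‖T (m + cj A lam p, t1) - T (p, t0)‖ ^ 2 := by
    funext p
    rw [← hc1 p, ← hc0 p]
    congr 2
    abel
  have hD : ∫ p, ‖T (m + cj A lam p, t1) - T (p, t0)‖ ^ 2 ∂(un (sl K t0)) ≤
      4 * (1 + 2 * Real.log (1 / ε)) * (C1 * s) := by
    have h2 := hdisp.2
    rw [e2] at h2
    exact h2
  have hDi : Integrable (fun p => ‖T (m + cj A lam p, t1) - T (p, t0)‖ ^ 2) (un (sl K t0)) := by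
    have h2 := hdisp.1
    rw [e2] at h2
    exact h2
  -- concentration in the fibre over `t1`
  have hvc : Continuous v := hv.continuous
  have c0 := hTt t0
  have c1 := hTt t1
  have hfib : (∫ p, v (T (p, t1)) ^ 2 ∂(un (sl K t1))) -
      (∫ p, v (T (p, t1)) ∂(un (sl K t1))) ^ 2 ≤ δ0 := by
    have hT0 : ∀ p, T (p, t1) = T (0, t1) + (T ∘ₗ LinearMap.inl ℝ (E N) (E d)) p := by
      intro p
      simp only [LinearMap.comp_apply, LinearMap.inl_apply]
      rw [← map_add]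
      simp
    have h2 := fibc (hcc t1 hL1) (T ∘ₗ LinearMap.inl ℝ (E N) (E d)) (T (0, t1)) (C1 * s)
      (by positivity) (fun θ hθ => by
        rw [VW_ind (h.sl_meas t1)]
        have h3 := hmom t1 b1 θ hθ
        have e3 : (fun p => ⟪T (p, t1) - cb, θ⟫_ℝ ^ 2) = fun p =>
            (⟪(T ∘ₗ LinearMap.inl ℝ (E N) (E d)) p, θ⟫_ℝ - ⟪cb - T (0, t1), θ⟫_ℝ) ^ 2 := by
          funext p
          rw [hT0 p, ← inner_sub_left]
          congr 2
          abel
        have hc3 : Continuous (T ∘ₗ LinearMap.inl ℝ (E N) (E d)) :=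
          LinearMap.continuous_of_finiteDimensional _
        rw [e3, (var_le (un (sl K t1)) (fun p => ⟪(T ∘ₗ LinearMap.inl ℝ (E N) (E d)) p, θ⟫_ℝ)
          (un_int hL1 hB1 (by fun_prop)) (un_int hL1 hB1 (by fun_prop)) _).2] at h3
        have h4 := sq_nonneg ((∫ p, ⟪(T ∘ₗ LinearMap.inl ℝ (E N) (E d)) p, θ⟫_ℝ ∂(un (sl K t1))) -
          ⟪cb - T (0, t1), θ⟫_ℝ)
        linarith) v hv hvb (fun y => by
        refine (hd y).trans ?_
        rw [Real.sqrt_mul hC1p.le, div_le_div_iff₀ (Real.sqrt_pos.2 hs) (by positivity)]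
        calc κ * (Real.sqrt C1 * Real.sqrt s) = (κ * Real.sqrt C1) * Real.sqrt s := by ring
          _ ≤ _ := mul_le_mul_of_nonneg_right hκ0 (Real.sqrt_nonneg _))
    rw [VW_ind (h.sl_meas t1)] at h2
    simpa only [← hT0] using h2
  -- the means
  have hlip : ∀ x y, |v x - v y| ≤ κ / Real.sqrt s * ‖x - y‖ := by
    intro x y
    have h2 := Convex.norm_image_sub_le_of_norm_fderiv_le (𝕜 := ℝ) (f := v) (s := univ)
      (C := κ / Real.sqrt s) (x := y) (y := x)
      (fun z _ => (hv.differentiable one_ne_zero) z) (fun z _ => hd z) convex_univ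
      (mem_univ _) (mem_univ _)
    rwa [Real.norm_eq_abs] at h2
  have hc1c : Continuous fun p : E N => T (m + cj A lam p, t1) := c1.comp (by fun_prop)
  have hmp : ∫ p, v (T (p, t1)) ∂(un (sl K t1)) =
      ∫ p, v (T (m + cj A lam p, t1)) ∂(un (sl K t0)) := by
    have h2 := hpush (fun p => v (T (p, t1)) + 1) (by fun_prop) (fun p => by
      have := (abs_le.1 (hvb (T (p, t1)))).1
      linarith)
    rw [integral_add (un_int hL1 hB1 (by fun_prop)) (integrable_const _),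
      integral_add (un_int hL0 hB0 (by fun_prop)) (integrable_const _)] at h2
    simpa using h2
  have hmean : ((∫ p, v (T (p, t1)) ∂(un (sl K t1))) -
      ∫ p, v (T (p, t0)) ∂(un (sl K t0))) ^ 2 ≤
      4 * (1 + 2 * Real.log (1 / ε)) * C1 * κ ^ 2 := by
    have j1 : Integrable (fun p => v (T (m + cj A lam p, t1))) (un (sl K t0)) :=
      un_int hL0 hB0 (by fun_prop)
    have j0 : Integrable (fun p => v (T (p, t0))) (un (sl K t0)) :=
      un_int hL0 hB0 (by fun_prop)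
    rw [hmp, ← integral_sub j1 j0]
    have h2 := (var_le (un (sl K t0)) (fun p => v (T (m + cj A lam p, t1)) - v (T (p, t0)))
      (j1.sub j0) (un_int hL0 hB0 (by fun_prop))
      (∫ p, v (T (m + cj A lam p, t1)) - v (T (p, t0)) ∂(un (sl K t0)))).2
    have h3 : 0 ≤ ∫ p, (v (T (m + cj A lam p, t1)) - v (T (p, t0)) -
      ∫ p, v (T (m + cj A lam p, t1)) - v (T (p, t0)) ∂(un (sl K t0))) ^ 2 ∂(un (sl K t0)) :=
      integral_nonneg fun p => sq_nonneg _
    rw [h2, sub_self] at h3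
    have h4 : ∫ p, (v (T (m + cj A lam p, t1)) - v (T (p, t0))) ^ 2 ∂(un (sl K t0)) ≤
        ∫ p, (κ / Real.sqrt s) ^ 2 * ‖T (m + cj A lam p, t1) - T (p, t0)‖ ^ 2
          ∂(un (sl K t0)) := by
      refine integral_mono (un_int hL0 hB0 (by fun_prop)) (hDi.const_mul _) fun p => ?_
      simp only
      rw [← sq_abs (v _ - v _), ← mul_pow]
      exact pow_le_pow_left₀ (abs_nonneg _) (hlip _ _) 2
    rw [integral_const_mul] at h4
    have h5 : (κ / Real.sqrt s) ^ 2 = κ ^ 2 / s := by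
      rw [div_pow, Real.sq_sqrt hs.le]
    have h6 : (κ / Real.sqrt s) ^ 2 *
        ∫ p, ‖T (m + cj A lam p, t1) - T (p, t0)‖ ^ 2 ∂(un (sl K t0)) ≤
        κ ^ 2 / s * (4 * (1 + 2 * Real.log (1 / ε)) * (C1 * s)) := by
      rw [h5]
      exact mul_le_mul_of_nonneg_left hD (by positivity)
    have h7 : κ ^ 2 / s * (4 * (1 + 2 * Real.log (1 / ε)) * (C1 * s)) =
        4 * (1 + 2 * Real.log (1 / ε)) * C1 * κ ^ 2 := by
      field_simp
    linarith
  rw [(var_le (un (sl K t1)) (fun p => v (T (p, t1))) (un_int hL1 hB1 (by fun_prop))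
    (un_int hL1 hB1 (by fun_prop)) _).2]
  linarith

end Pool.Agent.R754.KG
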